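import Mathlib

set_option autoImplicit false

namespace Pool.Agent.Results.MP_3ea013_an.Counterexample

def LeftStableOn {A : Type} [NormedRing A] (I : Set A) : Prop :=
  ∀ a ∈ I, ∀ M : ℝ, 0 < M → (∀ b ∈ I, ‖a * b‖ ≤ M * ‖b‖) → ‖a‖ ≤ M

def RightStableOn {A : Type} [NormedRing A] (I : Set A) : Prop :=
  ∀ a ∈ I, ∀ M : ℝ, 0 < M → (∀ b ∈ I, ‖b * a‖ ≤ M * ‖b‖) → ‖a‖ ≤ M

theorem result : ∃ (A : Type) (_ : NormedRing A) (_ : NormedAlgebra ℂ A) (_ : CompleteSpace A)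
    (I : TwoSidedIdeal A), LeftStableOn (Set.univ : Set A) ∧ RightStableOn (Set.univ : Set A) ∧
      IsClosed (I : Set A) ∧ (∀ (c : ℂ), ∀ a ∈ I, c • a ∈ I) ∧
      ¬ LeftStableOn (I : Set A) ∧ ¬ RightStableOn (I : Set A) := by
  have m : ∀ a : TrivSqZeroExt ℂ ℂ, a ∈ TwoSidedIdeal.ker (TrivSqZeroExt.fstHom ℂ ℂ ℂ) ↔
      a.fst = 0 := fun a => TwoSidedIdeal.mem_ker _
  have z : ∀ a b : TrivSqZeroExt ℂ ℂ, a.fst = 0 → b.fst = 0 → a * b = 0 := fun a b ha hb => by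
    ext <;> simp [ha, hb]
  have n : ¬ ‖(TrivSqZeroExt.inr 1 : TrivSqZeroExt ℂ ℂ)‖ ≤ 1 / 2 := by
    rw [TrivSqZeroExt.norm_inr]; norm_num
  refine ⟨TrivSqZeroExt ℂ ℂ, inferInstance, inferInstance, inferInstance,
    TwoSidedIdeal.ker (TrivSqZeroExt.fstHom ℂ ℂ ℂ), fun a _ M _ h => by simpa using h 1 trivial,
    fun a _ M _ h => by simpa using h 1 trivial, ?_, fun c a ha => ?_, fun h => n ?_,
    fun h => n ?_⟩
  · have : ((TwoSidedIdeal.ker (TrivSqZeroExt.fstHom ℂ ℂ ℂ) : TwoSidedIdeal _) :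
        Set (TrivSqZeroExt ℂ ℂ)) = {a | a.fst = 0} := Set.ext m
    rw [this]
    exact isClosed_eq TrivSqZeroExt.continuous_fst continuous_const
  · rw [m] at ha ⊢
    simp [ha]
  · exact h _ ((m _).2 rfl) _ (by norm_num) fun b hb => by
      rw [z _ b rfl ((m b).1 hb), norm_zero]; positivity
  · exact h _ ((m _).2 rfl) _ (by norm_num) fun b hb => by
      rw [z b _ ((m b).1 hb) rfl, norm_zero]; positivity

end Pool.Agent.Results.MP_3ea013_an.Counterexample
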